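import Pool.Agent.Q113.XV.Stm

/-!
# Project XV of helper113: `S_CTB` and `S_RST`
-/

set_option autoImplicit false

namespace Pool.Agent.Q119.XV

open Finset Pool.Agent.W205.K5 Pool.Agent.Q113.XV Pool.Agent.W593.IR

theorem pow_diff (n : ℕ) {a b : ℝ} (ha0 : 0 ≤ a) (ha1 : a ≤ 1) (hb0 : 0 ≤ b) (hb1 : b ≤ 1) :
    |a ^ n - b ^ n| ≤ n * |a - b| := by
  have h := abs_pow_sub_pow_le a b n
  have h1 : max |a| |b| ^ (n - 1) ≤ 1 := by
    refine pow_le_one₀ (le_max_of_le_left (abs_nonneg _)) ?_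
    rw [abs_of_nonneg ha0, abs_of_nonneg hb0]
    exact max_le ha1 hb1
  have h2 : 0 ≤ |a - b| * n := by positivity
  calc |a ^ n - b ^ n| ≤ |a - b| * n * max |a| |b| ^ (n - 1) := h
    _ ≤ |a - b| * n * 1 := mul_le_mul_of_nonneg_left h1 h2
    _ = n * |a - b| := by ring

theorem t_CTB : S_CTB := by
  intro k
  refine ⟨∑ j ∈ range (k + 1), (k.choose j : ℝ) * k + 1, by positivity, ?_⟩
  intro u hu ρ ρ' h0 h1 h0' h1'
  have hterm : ∀ j ∈ range (k + 1), |(k.choose j : ℝ) * (1 - ρ) ^ (k - j) * ρ ^ j * u j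
      - (k.choose j : ℝ) * (1 - ρ') ^ (k - j) * ρ' ^ j * u j| ≤ (k.choose j : ℝ) * k * |ρ - ρ'| := by
    intro j hj
    have hjk : j ≤ k := Nat.lt_succ_iff.1 (mem_range.1 hj)
    have e : (k.choose j : ℝ) * (1 - ρ) ^ (k - j) * ρ ^ j * u j
      - (k.choose j : ℝ) * (1 - ρ') ^ (k - j) * ρ' ^ j * u j
      = (k.choose j : ℝ) * (((1 - ρ) ^ (k - j) - (1 - ρ') ^ (k - j)) * ρ ^ j
        + (1 - ρ') ^ (k - j) * (ρ ^ j - ρ' ^ j)) * u j := by ring
    rw [e, abs_mul, abs_mul, abs_of_nonneg (hu j).1, abs_of_nonneg (Nat.cast_nonneg (k.choose j))]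
    have a1 : |(1 - ρ) ^ (k - j) - (1 - ρ') ^ (k - j)| ≤ ((k - j : ℕ) : ℝ) * |ρ - ρ'| := by
      have h2 := pow_diff (k - j) (a := 1 - ρ) (b := 1 - ρ') (by linarith) (by linarith)
        (by linarith) (by linarith)
      have h3 : |1 - ρ - (1 - ρ')| = |ρ - ρ'| := by
        rw [← abs_neg]
        congr 1
        ring
      rwa [h3] at h2
    have a2 : |ρ ^ j - ρ' ^ j| ≤ (j : ℝ) * |ρ - ρ'| := pow_diff j h0 h1 h0' h1'
    have a3 : |((1 - ρ) ^ (k - j) - (1 - ρ') ^ (k - j)) * ρ ^ j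
        + (1 - ρ') ^ (k - j) * (ρ ^ j - ρ' ^ j)| ≤ k * |ρ - ρ'| := by
      have b1 : |ρ ^ j| ≤ 1 := by
        rw [abs_of_nonneg (pow_nonneg h0 j)]
        exact pow_le_one₀ h0 h1
      have b2 : |(1 - ρ') ^ (k - j)| ≤ 1 := by
        rw [abs_of_nonneg (pow_nonneg (by linarith) _)]
        exact pow_le_one₀ (by linarith) (by linarith)
      have hk : ((k - j : ℕ) : ℝ) + j = k := by
        rw [Nat.cast_sub hjk]
        ring
      calc |((1 - ρ) ^ (k - j) - (1 - ρ') ^ (k - j)) * ρ ^ j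
          + (1 - ρ') ^ (k - j) * (ρ ^ j - ρ' ^ j)|
          ≤ |(1 - ρ) ^ (k - j) - (1 - ρ') ^ (k - j)| * |ρ ^ j|
            + |(1 - ρ') ^ (k - j)| * |ρ ^ j - ρ' ^ j| := by
            rw [← abs_mul, ← abs_mul]
            exact abs_add_le _ _
        _ ≤ ((k - j : ℕ) : ℝ) * |ρ - ρ'| * 1 + 1 * ((j : ℝ) * |ρ - ρ'|) := by
            gcongr
        _ = k * |ρ - ρ'| := by
            rw [← hk]
            ring
    calc (k.choose j : ℝ) * |((1 - ρ) ^ (k - j) - (1 - ρ') ^ (k - j)) * ρ ^ j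
        + (1 - ρ') ^ (k - j) * (ρ ^ j - ρ' ^ j)| * u j
        ≤ (k.choose j : ℝ) * (k * |ρ - ρ'|) * 1 := by
          refine mul_le_mul (mul_le_mul_of_nonneg_left a3 (Nat.cast_nonneg _)) (hu j).2 (hu j).1 ?_
          positivity
      _ = (k.choose j : ℝ) * k * |ρ - ρ'| := by ring
  unfold Th
  rw [← sum_sub_distrib]
  refine (abs_sum_le_sum_abs _ _).trans ((sum_le_sum hterm).trans ?_)
  rw [← sum_mul]
  exact mul_le_mul_of_nonneg_right (by linarith) (abs_nonneg _)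

/-! ### Restriction -/

/-- number of tuples with sum less than `t` -/
noncomputable def GG {V : Type} [Fintype V] (y : V → ℝ) (k : ℕ) (t : ℝ) : ℝ :=
  ∑ f : Fin k → V, if ∑ i, y (f i) < t then (1 : ℝ) else 0

theorem GG_NL {V : Type} [Fintype V] (y : V → ℝ) (k : ℕ) : (NL y k : ℝ) = GG y k 1 := by
  classical
  unfold NL GG
  rw [Set.ncard_eq_toFinset_card', sum_boole]
  congr 2
  ext f
  simp

theorem GG_zero {V : Type} [Fintype V] (y : V → ℝ) (t : ℝ) :
    GG y 0 t = if 0 < t then (1 : ℝ) else 0 := by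
  unfold GG
  rw [Fintype.sum_unique]
  simp

theorem GG_succ {V : Type} [Fintype V] (y : V → ℝ) (k : ℕ) (t : ℝ) :
    GG y (k + 1) t = ∑ v, GG y k (t - y v) := by
  unfold GG
  rw [← (Fin.consEquiv (fun _ : Fin (k + 1) => V)).sum_comp, Fintype.sum_prod_type]
  refine sum_congr rfl fun v _ => sum_congr rfl fun g _ => ?_
  have e : ∑ i, y ((Fin.consEquiv (fun _ : Fin (k + 1) => V)) (v, g) i) = y v + ∑ i, y (g i) := by
    rw [Fin.sum_univ_succ]
    rfl
  rw [e]
  by_cases h : ∑ i, y (g i) < t - y v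
  · rw [if_pos h, if_pos (by linarith)]
  · rw [if_neg h, if_neg (fun h2 => h (by linarith))]

/-- the binomial sum -/
noncomputable def SS (k : ℕ) (D : ℝ) (a : ℕ → ℝ) : ℝ :=
  ∑ j ∈ range (k + 1), (k.choose j : ℝ) * D ^ (k - j) * a j

theorem SS_succ (k : ℕ) (D : ℝ) (a : ℕ → ℝ) :
    SS (k + 1) D a = D * SS k D a + SS k D (fun j => a (j + 1)) := by
  unfold SS
  rw [sum_range_succ' (fun j => ((k + 1).choose j : ℝ) * D ^ (k + 1 - j) * a j) (k + 1)]
  have h1 : ∀ j ∈ range (k + 1), ((k + 1).choose (j + 1) : ℝ) * D ^ (k + 1 - (j + 1)) * a (j + 1)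
      = (k.choose j : ℝ) * D ^ (k - j) * a (j + 1)
        + (k.choose (j + 1) : ℝ) * D ^ (k - j) * a (j + 1) := by
    intro j _
    rw [Nat.choose_succ_succ, Nat.add_sub_add_right]
    push_cast
    ring
  rw [sum_congr rfl h1, sum_add_distrib]
  have h2 : ∑ j ∈ range (k + 1), (k.choose (j + 1) : ℝ) * D ^ (k - j) * a (j + 1)
      = ∑ j ∈ range k, D * ((k.choose (j + 1) : ℝ) * D ^ (k - (j + 1)) * a (j + 1)) := by
    rw [sum_range_succ, Nat.choose_succ_self]
    simp only [Nat.cast_zero, zero_mul, add_zero]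
    refine sum_congr rfl fun j hj => ?_
    have hjk : j < k := mem_range.1 hj
    have e : k - j = (k - (j + 1)) + 1 := by omega
    rw [e, pow_succ]
    ring
  rw [h2, sum_range_succ' (fun j => (k.choose j : ℝ) * D ^ (k - j) * a j) k]
  simp only [Nat.choose_zero_right, Nat.cast_one, Nat.sub_zero, one_mul]
  rw [mul_add, mul_sum, pow_succ]
  ring

theorem SS_sum {ι : Type} (s : Finset ι) (k : ℕ) (D : ℝ) (a : ι → ℕ → ℝ) :
    ∑ i ∈ s, SS k D (a i) = SS k D (fun j => ∑ i ∈ s, a i j) := by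
  unfold SS
  rw [sum_comm]
  refine sum_congr rfl fun j _ => ?_
  rw [mul_sum]

theorem GG_restrict {V : Type} [Fintype V] [DecidableEq V] (U : Finset V) (y : V → ℝ)
    (hy : ∀ v, v ∉ U → y v = 0) (k : ℕ) (t : ℝ) :
    GG y k t = SS k ((Fintype.card V : ℝ) - U.card) (fun j => GG (fun v : U => y v) j t) := by
  induction k generalizing t with
  | zero =>
    unfold SS
    simp [GG_zero]
  | succ k ih =>
    rw [GG_succ, SS_succ, ← sum_add_sum_compl U]
    have h1 : ∑ v ∈ Uᶜ, GG y k (t - y v)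
        = ((Fintype.card V : ℝ) - U.card) * SS k ((Fintype.card V : ℝ) - U.card)
          (fun j => GG (fun v : U => y v) j t) := by
      have h2 : ∀ v ∈ Uᶜ, GG y k (t - y v) = GG y k t := by
        intro v hv
        rw [hy v (mem_compl.1 hv), sub_zero]
      rw [sum_congr rfl h2, sum_const, card_compl, nsmul_eq_mul, Nat.cast_sub (card_le_univ U), ih]
    have h3 : ∑ v ∈ U, GG y k (t - y v)
        = SS k ((Fintype.card V : ℝ) - U.card) (fun j => GG (fun v : U => y v) (j + 1) t) := by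
      rw [sum_congr rfl fun v _ => ih (t - y v), SS_sum]
      unfold SS
      refine sum_congr rfl fun j _ => ?_
      beta_reduce
      rw [GG_succ, ← sum_coe_sort U]
    rw [h1, h3]
    ring

theorem t_RST : S_RST := by
  intro V _ _ _ U y k hU hy
  have hN : (0 : ℝ) < Fintype.card V := by exact_mod_cast Fintype.card_pos
  have hM : (0 : ℝ) < U.card := by exact_mod_cast card_pos.2 hU
  rw [GG_NL, GG_restrict U y hy]
  unfold SS Th
  rw [sum_div]
  refine sum_congr rfl fun j hj => ?_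
  have hjk : j ≤ k := Nat.lt_succ_iff.1 (mem_range.1 hj)
  beta_reduce
  rw [← GG_NL]
  have e1 : (1 : ℝ) - (U.card : ℝ) / Fintype.card V = ((Fintype.card V : ℝ) - U.card) / Fintype.card V := by
    field_simp
  have e2 : (Fintype.card V : ℝ) ^ k = (Fintype.card V : ℝ) ^ (k - j) * (Fintype.card V : ℝ) ^ j := by
    rw [← pow_add]
    congr 1
    omega
  rw [e1, div_pow, div_pow, e2]
  field_simp

end Pool.Agent.Q119.XV
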