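import Pool.Agent.Q113.XV.Stm
import Pool.Agent.Q150.XM.NEC

/-!
# Project XV of helper113: `S_NEC5` (adapted from helper150's proof of `S_NEC`)
-/

set_option autoImplicit false

namespace Pool.Agent.Q119.XV

open Finset Pool.Agent.W890.SF Pool.Agent.W593.IR Pool.Agent.Q54.EM Pool.Agent.Q113.XM
  Pool.Agent.Q113.XV Pool.Agent.Q150.XM

theorem t_NEC5 : S_DI1 → S_FAC → S_MINC → S_NEC5 := by
  classical
  intro hDI hFAC hMIN k hk x0 η δ c1 hx0 hη hδ hc1
  have hkf : (0 : ℝ) < (k.factorial : ℝ) := by exact_mod_cast Nat.factorial_pos k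
  have hk2 : (2 : ℝ) ≤ k := by exact_mod_cast hk
  obtain ⟨δ₂, hδ₂, hmv⟩ := mv_unif k (η / 3) (by positivity)
  set c : ℝ := min c1 (η / (3 * k.factorial)) with hc
  have hc0 : 0 < c := by positivity
  set ε : ℝ := min (1 / 4) (min (δ / 4) (δ₂ / 4)) with hε
  have hε0 : 0 < ε := by positivity
  have hε1 : ε ≤ 1 / 4 := min_le_left _ _
  have hε2 : ε ≤ δ / 4 := (min_le_right _ _).trans (min_le_left _ _)
  have hε3 : ε ≤ δ₂ / 4 := (min_le_right _ _).trans (min_le_right _ _)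
  obtain ⟨n1, hn1⟩ := hDI k hk x0 c ε ε hx0 hc0 hε0 hε0
  refine ⟨max (max 1 n1) ⌈3 * (k : ℝ) ^ 2 / η⌉₊, ?_⟩
  intro n hn F hF s hs hks hM hFc
  have hn' : 1 ≤ n := (le_max_left _ _).trans ((le_max_left _ _).trans hn)
  have hn'' : n1 ≤ n := (le_max_right _ _).trans ((le_max_left _ _).trans hn)
  have hn0 : (0 : ℝ) < n := by exact_mod_cast hn'
  have hnη : 3 * (k : ℝ) ^ 2 ≤ η * n := by
    have h1 : (⌈3 * (k : ℝ) ^ 2 / η⌉₊ : ℝ) ≤ n := by exact_mod_cast (le_max_right _ _).trans hn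
    have h2 := (Nat.le_ceil _).trans h1
    rw [div_le_iff₀ hη] at h2
    linarith
  have hs0 : (0 : ℝ) ≤ s := Nat.cast_nonneg _
  have hks' : (k : ℝ) * (s + 1) ≤ n := by exact_mod_cast hks
  have h2s : 2 * (s : ℝ) ≤ n := by nlinarith
  obtain ⟨y0, hy0, hy0s, hy0e⟩ := hn1 n hn'' F hF s hs (by nlinarith) hM
  have h1ε : 0 < 1 - ε := by linarith
  set y : Fin n → ℝ := fun v => y0 v / (1 - ε) with hy
  set x : ℝ := (1 + ε) * s / ((1 - ε) * n) with hx
  have hxn : x * n = (1 + ε) * s / (1 - ε) := by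
    rw [hx]
    field_simp
  have hxs : (s : ℝ) ≤ x * n := by
    rw [hxn, le_div_iff₀ h1ε]
    nlinarith
  have hxs4 : x * n ≤ s + 4 * ε * (n / 2) := by
    rw [hxn, div_le_iff₀ h1ε]
    nlinarith [mul_nonneg hε0.le hs0, mul_nonneg hε0.le hn0.le,
      mul_nonneg (mul_nonneg hε0.le hε0.le) hn0.le]
  have hxsδ : x * n ≤ s + δ * n := by
    nlinarith
  have hsum : ∀ e : Finset (Fin n), ∑ v ∈ e, y v = (∑ v ∈ e, y0 v) / (1 - ε) := by
    intro e
    rw [hy]
    simp only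
    rw [sum_div]
  have hlight : F.filter (fun e => ∑ v ∈ e, y v < 1) ⊆
      F.filter (fun e => ∑ v ∈ e, y0 v ≤ 1 - ε) := by
    intro e he
    obtain ⟨he1, he2⟩ := mem_filter.mp he
    rw [mem_filter]
    refine ⟨he1, ?_⟩
    rw [hsum, div_lt_one h1ε] at he2
    exact he2.le
  have hlc : ((F.filter (fun e => ∑ v ∈ e, y v < 1)).card : ℝ) ≤ c * (n : ℝ) ^ k := by
    have : ((F.filter (fun e => ∑ v ∈ e, y v < 1)).card : ℝ) ≤
        ((F.filter (fun e => ∑ v ∈ e, y0 v ≤ 1 - ε)).card : ℝ) := by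
      exact_mod_cast card_le_card hlight
    exact this.trans hy0e.le
  have hpow : (0 : ℝ) < (n : ℝ) ^ k := by positivity
  obtain ⟨y', hy'0, hy'c, hy's, hy'u⟩ := hMIN (Fin n) k (F.filter (fun e => 1 ≤ ∑ v ∈ e, y v)) y
    (by omega) (fun e he => hF e (mem_filter.mp he).1) (fun v => div_nonneg (hy0 v) h1ε.le)
    (fun e he => (mem_filter.mp he).2)
  have hlight' : F.filter (fun e => ∑ v ∈ e, y' v < 1) ⊆ F.filter (fun e => ∑ v ∈ e, y v < 1) := by
    intro e he
    obtain ⟨he1, he2⟩ := mem_filter.mp he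
    rw [mem_filter]
    refine ⟨he1, ?_⟩
    by_contra hcon
    push Not at hcon
    have := hy'c e (mem_filter.mpr ⟨he1, hcon⟩)
    linarith
  refine ⟨y', x, hy'0, ?_, hxs, hxsδ, ?_, ?_, hy'u⟩
  · refine hy's.trans ?_
    rw [hsum, hxn]
    exact div_le_div_of_nonneg_right hy0s h1ε.le
  · -- the number of the tuples
    have h1 := card_lower k n s hk hn' hks F.card hFc
    have h2 : mv k x ≤ mv k ((s : ℝ) / n) + η / 3 := by
      apply hmv
      · positivity
      · rw [div_le_iff₀ hn0]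
        exact hxs
      · have h3 : x * n ≤ 2 * n := by nlinarith
        exact le_of_mul_le_mul_right h3 hn0
      · have h3 : x * n ≤ ((s : ℝ) / n + δ₂) * n := by
          have : ((s : ℝ) / n + δ₂) * n = s + δ₂ * n := by field_simp
          rw [this]
          nlinarith
        exact le_of_mul_le_mul_right h3 hn0
    have h3 : ((F.filter (fun e => 1 ≤ ∑ v ∈ e, y v)).card * k.factorial : ℕ) ≤ NG y' k :=
      hFAC (Fin n) k (F.filter (fun e => 1 ≤ ∑ v ∈ e, y v)) y'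
        (fun e he => hF e (mem_filter.mp he).1) hy'c
    have h4 : (F.card : ℝ) ≤ ((F.filter (fun e => 1 ≤ ∑ v ∈ e, y v)).card : ℝ) +
        c * (n : ℝ) ^ k := by
      have h5 : F.card = (F.filter (fun e => 1 ≤ ∑ v ∈ e, y v)).card +
          (F.filter (fun e => ¬ 1 ≤ ∑ v ∈ e, y v)).card :=
        (card_filter_add_card_filter_not _).symm
      have h6 : F.filter (fun e => ¬ 1 ≤ ∑ v ∈ e, y v) = F.filter (fun e => ∑ v ∈ e, y v < 1) := by
        apply filter_congr
        intro e _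
        exact not_le
      rw [h6] at h5
      have h7 : (F.card : ℝ) = ((F.filter (fun e => 1 ≤ ∑ v ∈ e, y v)).card : ℝ) +
          ((F.filter (fun e => ∑ v ∈ e, y v < 1)).card : ℝ) := by exact_mod_cast h5
      linarith
    have h5 : ((F.filter (fun e => 1 ≤ ∑ v ∈ e, y v)).card : ℝ) * k.factorial ≤ (NG y' k : ℝ) := by
      exact_mod_cast h3
    have h6 : (k.factorial : ℝ) * F.card ≤ (NG y' k : ℝ) + k.factorial * (c * (n : ℝ) ^ k) := by
      have := mul_le_mul_of_nonneg_left h4 hkf.le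
      linarith
    have h7 : (k.factorial : ℝ) * c ≤ η / 3 := by
      have : c ≤ η / (3 * k.factorial) := min_le_right _ _
      rw [le_div_iff₀ (by positivity)] at this
      linarith
    have h8 : (k : ℝ) ^ 2 / n ≤ η / 3 := by
      rw [div_le_iff₀ hn0]
      linarith
    have h9 : (k.factorial : ℝ) * (c * (n : ℝ) ^ k) ≤ η / 3 * (n : ℝ) ^ k := by
      rw [← mul_assoc]
      exact mul_le_mul_of_nonneg_right h7 hpow.le
    calc (mv k x - η) * (n : ℝ) ^ k
        ≤ (mv k ((s : ℝ) / n) - (k : ℝ) ^ 2 / n - η / 3) * (n : ℝ) ^ k := by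
          apply mul_le_mul_of_nonneg_right _ hpow.le
          linarith
      _ = (mv k ((s : ℝ) / n) - (k : ℝ) ^ 2 / n) * (n : ℝ) ^ k - η / 3 * (n : ℝ) ^ k := by ring
      _ ≤ (NG y' k : ℝ) := by linarith
  · have h1 : ((F.filter (fun e => ∑ v ∈ e, y' v < 1)).card : ℝ) ≤
        ((F.filter (fun e => ∑ v ∈ e, y v < 1)).card : ℝ) := by
      exact_mod_cast card_le_card hlight'
    exact (h1.trans hlc).trans (mul_le_mul_of_nonneg_right (min_le_left _ _) hpow.le)

end Pool.Agent.Q119.XV
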